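import Pool.Agent.Mg.F2e2529.G3b853b

section

/-! The renewal inequality for sets that are invariant under the accelerated map. -/

namespace Pool.Agent.MP_2e2529_nt.Dens

open Finset Real Classical

/-- Invariance under the accelerated map above `N`. -/
def Inv (P : ℕ → Prop) (N : ℕ) : Prop := ∀ x, x % 2 = 1 → N < x → (P x ↔ P (T x))

/-- The number of odd members up to `X`. -/
noncomputable def Fc (P : ℕ → Prop) (X : ℕ) : ℕ := #{x ∈ range (X + 1) | x % 2 = 1 ∧ P x}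

noncomputable def Pq (P : ℕ → Prop) (Y H k A : ℕ) : Finset (ℕ × List ℕ) :=
  {p ∈ range (Y + 1) ×ˢ wds H | P p.1 ∧ p.2.sum + k = A ∧
    ∃ u, 2 ^ p.2.sum * (2 * u + 1) = 3 ^ H * p.1 + cw p.2}

theorem T_odd {x : ℕ} (hx : x % 2 = 1) : T x % 2 = 1 := by
  have a := T_spec x
  unfold st at a
  split_ifs at a <;> norm_num at a <;> omega

theorem iter_odd (H : ℕ) {x : ℕ} (hx : x % 2 = 1) : T^[H] x % 2 = 1 := by
  induction H with
  | zero => exact hx
  | succ H ih =>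
    rw [Function.iterate_succ_apply']
    exact T_odd ih

variable {P : ℕ → Prop} {N : ℕ}

theorem inv_iter (h : Inv P N) (H : ℕ) {x : ℕ} (hx : x % 2 = 1) (hb : 3 ^ H * (N + 1) ≤ x) :
    P x ↔ P (T^[H] x) := by
  induction H with
  | zero => rfl
  | succ H ih =>
    have h1 : 3 ^ H * (N + 1) ≤ x := le_trans
      (Nat.mul_le_mul_right _ (Nat.pow_le_pow_right (by norm_num) (Nat.le_succ _))) hb
    rw [ih h1, Function.iterate_succ_apply']
    refine h _ (iter_odd H hx) ?_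
    have a := T_low H x
    by_contra e
    have : 3 ^ H * (T^[H] x + 1) ≤ 3 ^ H * (N + 1) := Nat.mul_le_mul_left _ (by omega)
    omega

theorem Pq_card {n Y H k A : ℕ} (hA : A < n) :
    (#(Pq P Y H k A) : ℝ) = 3 ^ H * 2 ^ k / 2 ^ (A + 1) *
      ∑ y ∈ range (Y + 1), (if P y then 1 else 0) * den n H (A - k) y := by
  rw [Pq, card_filter, sum_product, mul_sum]
  push_cast
  refine sum_congr rfl fun y _ => ?_
  by_cases h : P y
  · rw [if_pos h, one_mul, den, ← EW_mul, EW, eq_div_iff (by positivity), sum_mul]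
    refine sum_congr rfl fun w _ => ?_
    by_cases e : w.sum + k = A
    · have := fiber_card (n := n) (A := w.sum) (m := 3 ^ H * y + cw w) (by omega)
      push_cast at this
      rw [if_pos (by omega : (A : ℤ) - k - w.sum = 0), this]
      simp only [h, e, true_and]
      split_ifs
      · rw [← e]
        push_cast
        field_simp
        ring
      · simp
    · rw [if_neg (by omega : ¬ (A : ℤ) - k - w.sum = 0), if_neg fun a => e a.2.1]
      simp
  · simp [h]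

theorem Pq_up (X G A : ℕ) :
    #{x ∈ range (X + 1) | (x % 2 = 1 ∧ P (T^[G] x)) ∧ (wd G x).sum = A} ≤
      #(Pq P (2 ^ A * X / 3 ^ G) G 0 A) := by
  refine card_le_card_of_injOn (fun x => (T^[G] x, wd G x)) (fun x hx => ?_) fun x _ y _ e => ?_
  · obtain ⟨b1, ⟨b2, b3⟩, rfl⟩ := mem_filter.1 (mem_coe.1 hx)
    refine mem_coe.2 (mem_filter.2 ⟨mem_product.2 ⟨mem_range.2 (Nat.lt_succ_of_le ?_), wd_mem _ _⟩,
      b3, rfl, x / 2, ?_⟩)
    · rw [Nat.le_div_iff_mul_le (by positivity), mul_comm]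
      exact (Nat.le_add_right _ _).trans ((fwd _ _).trans_le
        (Nat.mul_le_mul_left _ (Nat.le_of_lt_succ (mem_range.1 b1))))
    · rw [fwd, show 2 * (x / 2) + 1 = x by omega]
  · obtain ⟨e1, e2⟩ := Prod.mk.inj e
    refine Nat.eq_of_mul_eq_mul_left (Nat.two_pow_pos (wd G y).sum) ?_
    rw [← fwd G y, ← e1, ← e2, fwd]

theorem Pq_low (h : Inv P N) (X H t k n : ℕ) :
    ∑ A ∈ range n, #(Pq P (2 ^ A * X / 3 ^ (H + t)) H k A) ≤
      Fc P (2 ^ k * X / 3 ^ t) + 3 ^ H * (N + 2) := by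
  generalize hX : 2 ^ k * X / 3 ^ t = X'
  obtain ⟨S, hS⟩ : ∃ S, S = {x ∈ range (X' + 3 ^ H + 1) | x % 2 = 1 ∧ P (T^[H] x)} := ⟨_, rfl⟩
  calc _ ≤ ∑ A ∈ range n, #{x ∈ S | (wd H x).sum + k = A} := by
        refine sum_le_sum fun A _ => card_le_card_of_surjOn (fun x => (T^[H] x, wd H x)) ?_
        rintro ⟨y, w⟩ hp
        obtain ⟨b1, b2, rfl, u, b3⟩ := mem_filter.1 (mem_coe.1 hp)
        obtain ⟨b4, b5⟩ := mem_product.1 b1
        obtain ⟨c1, c2⟩ := bwd b5 b3
        refine ⟨2 * u + 1, mem_coe.2 (mem_filter.2 ⟨hS ▸ mem_filter.2 ⟨mem_range.2 ?_, by omega,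
          c2 ▸ b2⟩, by rw [c1]⟩), Prod.ext c2 c1⟩
        have c3 := (Nat.le_div_iff_mul_le (by positivity)).1 (Nat.le_of_lt_succ (mem_range.1 b4))
        have c4 := cw_le w
        rw [(mem_wds.1 b5).1] at c4
        have c5 : 2 * u + 1 - 3 ^ H ≤ X' := by
          rw [← hX, Nat.le_div_iff_mul_le (by positivity)]
          refine Nat.le_of_mul_le_mul_left ?_ (Nat.two_pow_pos w.sum)
          rw [← mul_assoc, Nat.mul_sub, b3, ← mul_assoc, ← pow_add]
          refine le_trans (Nat.mul_le_mul_right _ (show _ ≤ 3 ^ H * y by dsimp only; omega))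
            (le_trans (le_of_eq ?_) c3)
          ring
        omega
    _ ≤ #S := (sum_card_fiberwise_eq_card_filter _ _ _).trans_le (card_filter_le _ _)
    _ ≤ #({x ∈ range (X' + 1) | x % 2 = 1 ∧ P x} ∪ Ioc X' (X' + 3 ^ H) ∪
          range (3 ^ H * (N + 1))) := by
        refine card_le_card fun x hx => ?_
        obtain ⟨b1, b2, b3⟩ := mem_filter.1 (hS ▸ hx)
        simp only [mem_union, mem_filter, mem_range, mem_Ioc] at b1 ⊢
        by_cases e : 3 ^ H * (N + 1) ≤ x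
        · simp only [b2, (inv_iter h H b2 e).2 b3, and_true]
          omega
        · exact Or.inr (not_le.1 e)
    _ ≤ _ := by
        refine (card_union_le _ _).trans ((Nat.add_le_add_right (card_union_le _ _) _).trans ?_)
        rw [card_range, Nat.card_Ioc, Nat.add_sub_cancel_left, Fc]
        exact le_of_eq (by ring)

theorem renew (α : ℕ) : ∃ C : ℝ, 0 ≤ C ∧ ∀ (P : ℕ → Prop) (N X t j : ℕ), Inv P N → j ≤ t →
    2 ^ (32 * t) ≤ X → 2 ^ (19 * t) * (N + 2) ≤ X →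
    (Fc P X : ℝ) ≤ EW j (fun v => 3 ^ j / 2 ^ v.sum * (Fc P (2 ^ v.sum * X / 3 ^ j) : ℝ)) +
      C / (t + 1) ^ α * X := by
  obtain ⟨C, hC0, hC⟩ := mix α
  obtain ⟨K, hK0, hK⟩ := polyK α (ρ := 14 / 15) (by norm_num) (by norm_num)
  refine ⟨2 * C + 4 * K, by positivity, fun P N X t j hP hj h1 h2 => ?_⟩
  have hm := hC t j
  generalize hn : 14 * t = n at hm
  generalize hH : 10 * t = H at hm
  have h3 : (3 : ℝ) ^ (H + j) ≤ 2 ^ (18 * t) :=
    calc (3 : ℝ) ^ (H + j) ≤ 3 ^ (11 * t) := pow_le_pow_right₀ (by norm_num) (by omega)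
      _ ≤ _ := by
        rw [pow_mul, pow_mul]
        gcongr
        norm_num
  have h4 : (3 : ℝ) ^ (H + j) * 2 ^ n ≤ X :=
    calc (3 : ℝ) ^ (H + j) * 2 ^ n ≤ 2 ^ (18 * t) * 2 ^ n := by gcongr
      _ = 2 ^ (32 * t) := by rw [← hn]; ring
      _ ≤ _ := by exact_mod_cast h1
  have h5 : (3 : ℝ) ^ (H + j) * (N + 2) ≤ (14 / 15) ^ t * X :=
    calc (3 : ℝ) ^ (H + j) * (N + 2) ≤ 1 * 2 ^ (18 * t) * (N + 2) := by rw [one_mul]; gcongr
      _ ≤ (14 / 15 * 2) ^ t * 2 ^ (18 * t) * (N + 2) := by gcongr; exact one_le_pow₀ (by norm_num)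
      _ = (14 / 15) ^ t * (2 ^ (19 * t) * (N + 2)) := by rw [mul_pow]; ring
      _ ≤ _ := by gcongr; exact_mod_cast h2
  have a0 : Fc P X ≤ #{x ∈ range (X + 1) | x % 2 = 1 ∧ P (T^[H + j] x)} + 3 ^ (H + j) * (N + 1) := by
    rw [← card_range (3 ^ (H + j) * (N + 1))]
    refine (card_le_card fun x hx => ?_).trans (card_union_le _ _)
    obtain ⟨b1, b2, b3⟩ := mem_filter.1 hx
    by_cases e : 3 ^ (H + j) * (N + 1) ≤ x
    · exact mem_union_left _ (mem_filter.2 ⟨b1, b2, (inv_iter hP _ b2 e).1 b3⟩)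
    · exact mem_union_right _ (mem_range.2 (not_le.1 e))
  have a1 : #{x ∈ range (X + 1) | x % 2 = 1 ∧ P (T^[H + j] x)} ≤
      #{x ∈ range (X + 1) | (2 : ℝ) ^ n ≤ 2 ^ (wd (H + j) x).sum} +
      ∑ A ∈ range n, #(Pq P (2 ^ A * X / 3 ^ (H + j)) (H + j) 0 A) := by
    refine le_trans ?_ (Nat.add_le_add_left (sum_le_sum fun A _ => Pq_up X (H + j) A) _)
    simp only [← filter_filter (fun x => x % 2 = 1 ∧ P (T^[H + j] x))]
    rw [sum_card_fiberwise_eq_card_filter]
    refine (card_le_card fun x hx => ?_).trans (card_union_le _ _)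
    by_cases e : (wd (H + j) x).sum < n
    · exact mem_union_right _ (mem_filter.2 ⟨hx, mem_range.2 e⟩)
    · exact mem_union_left _ (mem_filter.2 ⟨(mem_filter.1 hx).1,
        pow_le_pow_right₀ one_le_two (not_lt.1 e)⟩)
  have a2 : ∀ A ∈ range n, (#(Pq P (2 ^ A * X / 3 ^ (H + j)) (H + j) 0 A) : ℝ) ≤
      EW j (fun v => 3 ^ j / 2 ^ v.sum * (#(Pq P (2 ^ A * X / 3 ^ (H + j)) H v.sum A) : ℝ)) +
      2 * X * ((∑ y : R n, |den n (H + j) A y - EW j fun v => den n H (A - v.sum) y|) / 2 ^ n) := by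
    intro A hA
    have b0 : ((2 ^ A * X / 3 ^ (H + j) : ℕ) : ℝ) ≤ 2 ^ A * X / 3 ^ (H + j) :=
      Nat.cast_div_le.trans_eq (by push_cast; rfl)
    generalize 2 ^ A * X / 3 ^ (H + j) = Y at b0
    have b1 : ∀ (k : ℕ) (x : ℝ), 3 ^ j / 2 ^ k * (3 ^ H * 2 ^ k / 2 ^ (A + 1) * x) =
        3 ^ (H + j) * 2 ^ 0 / 2 ^ (A + 1) * x := fun k x => by field_simp; ring
    simp only [Pq_card (mem_range.1 hA), b1, EW_mul, EW_sum, Nat.cast_zero, sub_zero]
    rw [← sub_le_iff_le_add', ← mul_sub, ← sum_sub_distrib]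
    have b2 := fiber_sum (S := univ) (p := fun y => (y : R n))
      (g := fun y => |den n (H + j) A y - EW j fun v => den n H (A - v.sum) y|) Y (2 ^ n)
      (fun _ => mem_univ _) (fun x y e => (ZMod.natCast_eq_natCast_iff' _ _ _).1 e)
      fun _ => abs_nonneg _
    refine (mul_le_mul_of_nonneg_left ((sum_le_sum fun y _ => ?_).trans b2) (by positivity)).trans ?_
    · rw [← mul_sub]
      split_ifs
      · rw [one_mul]
        exact le_abs_self _
      · rw [zero_mul]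
        exact abs_nonneg _
    · rw [← mul_assoc, ← mul_div_assoc (2 * X : ℝ), mul_div_right_comm (2 * X : ℝ)]
      refine mul_le_mul_of_nonneg_right ?_ (sum_nonneg fun _ _ => abs_nonneg _)
      have b3 : (1 : ℝ) ≤ 2 ^ A := one_le_pow₀ one_le_two
      rw [le_div_iff₀ (by positivity)] at b0 ⊢
      push_cast
      rw [show (3 : ℝ) ^ (H + j) * 2 ^ 0 / 2 ^ (A + 1) * (Y / 2 ^ n + 1) * 2 ^ n =
        (Y * 3 ^ (H + j) + 3 ^ (H + j) * 2 ^ n) / 2 ^ (A + 1) by field_simp,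
        div_le_iff₀ (by positivity), pow_succ]
      nlinarith [X.cast_nonneg (α := ℝ)]
  have a3 : ∀ k : ℕ, ∑ A ∈ range n, 3 ^ j / 2 ^ k * (#(Pq P (2 ^ A * X / 3 ^ (H + j)) H k A) : ℝ) ≤
      3 ^ j / 2 ^ k * (Fc P (2 ^ k * X / 3 ^ j) : ℝ) + (14 / 15) ^ t * X := by
    intro k
    have b1 := (Nat.cast_le (α := ℝ)).2 (Pq_low hP X H j k n)
    generalize 2 ^ k * X / 3 ^ j = X' at b1
    push_cast at b1
    rw [← mul_sum]
    refine (mul_le_mul_of_nonneg_left b1 (by positivity)).trans ?_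
    have b2 : (3 : ℝ) ^ j / 2 ^ k * (3 ^ H * (N + 2)) ≤ (14 / 15) ^ t * X := by
      refine le_trans ?_ h5
      rw [pow_add, mul_comm (3 ^ H : ℝ) (3 ^ j), mul_assoc]
      gcongr
      exact div_le_self (by positivity) (one_le_pow₀ one_le_two)
    rw [mul_add]
    linarith
  have a4 := cnt (H + j) X (B := 2 ^ n) (by positivity)
  have a5 : ((X : ℝ) + 3 ^ (H + j)) * ((7 / 3) ^ (H + j) / 2 ^ n) ≤ (X + X) * (14 / 15) ^ t := by
    refine mul_le_mul (add_le_add le_rfl ?_) ?_ (by positivity) (by positivity)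
    · exact (le_mul_of_one_le_right (by positivity) (one_le_pow₀ one_le_two)).trans h4
    · calc (7 / 3 : ℝ) ^ (H + j) / 2 ^ n ≤ (7 / 3) ^ (11 * t) / 2 ^ n := by
            gcongr
            · norm_num
            · omega
        _ ≤ _ := by
          rw [← hn, pow_mul, pow_mul, ← div_pow]
          exact pow_le_pow_left₀ (by positivity) (by norm_num) t
  have a6 := sum_le_sum a2
  rw [sum_add_distrib, ← mul_sum, ← EW_sum] at a6
  have a7 := EW_mono (H := j) fun v _ => a3 v.sum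
  rw [EW_add, EW_const] at a7
  have a8 := (Nat.cast_le (α := ℝ)).2 a0
  have a9 := (Nat.cast_le (α := ℝ)).2 a1
  push_cast at a8 a9
  have hX := X.cast_nonneg (α := ℝ)
  have a10 : (3 : ℝ) ^ (H + j) * (N + 1) ≤ 3 ^ (H + j) * (N + 2) := by gcongr; norm_num
  have a11 := mul_le_mul_of_nonneg_left hm hX
  have a12 := mul_le_mul_of_nonneg_left (hK t) hX
  rw [add_div, mul_div_assoc, mul_div_assoc]
  linarith

end Pool.Agent.MP_2e2529_nt.Dens

end

section

/-! A bounded function that almost satisfies the renewal equation has a limit. -/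

namespace Pool.Agent.MP_2e2529_nt.Dens

open Finset Real Filter Topology

theorem maxp {g : ℝ → ℝ} {C U a b c : ℝ} (hg : ∀ u, g u ≤ 1) (hC : 0 ≤ C) (hb : 0 ≤ b)
    (hba : b ≤ a) (hc : 0 ≤ c) (hac : c + 1 / 2 ≤ a)
    (h : ∀ u, U ≤ u → g u ≤ (g (u - a) + g (u - b) + g (u + c)) / 3 + C / u ^ 2)
    {u0 M : ℝ} (hU : U ≤ u0) (hu : a < u0) (hM : ∀ w, u0 - a ≤ w → w ≤ u0 → g w ≤ M)
    (u : ℝ) (hu0 : u0 ≤ u) : g u ≤ M + 6 * C / (u0 - a) := by
  have ha : 0 < a := by linarith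
  have hp : 0 < u0 - a := by linarith
  have key : ∀ ε : ℝ, 0 < ε → g u ≤ M + 6 * C / (u0 - a) + ε * (u - u0 + a) := by
    intro ε hε
    obtain ⟨f, hf⟩ : ∃ f : ℝ → ℝ, ∀ v, f v = g v + 6 * C / v - ε * v := ⟨_, fun _ => rfl⟩
    have b0 : ∀ v, u0 - a ≤ v → 6 * C / v - ε * v ≤ 6 * C / (u0 - a) - ε * (u0 - a) := by
      intro v hv
      have : 6 * C / v ≤ 6 * C / (u0 - a) := by gcongr
      have : ε * (u0 - a) ≤ ε * v := by gcongr
      linarith
    have b1 : BddAbove (f '' Set.Ici (u0 - a)) := by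
      refine ⟨1 + (6 * C / (u0 - a) - ε * (u0 - a)), ?_⟩
      rintro _ ⟨v, hv, rfl⟩
      rw [hf]
      linarith [hg v, b0 v hv]
    obtain ⟨S, hS⟩ : ∃ S, S = sSup (f '' Set.Ici (u0 - a)) := ⟨_, rfl⟩
    have b2 : ∀ v, u0 - a ≤ v → f v ≤ S := fun v hv => hS ▸ le_csSup b1 ⟨v, hv, rfl⟩
    have b3 : ∀ v, u0 ≤ v → f v ≤ S - ε / 6 := by
      intro v hv
      have c0 : 0 < v := by linarith
      have c1 := b2 (v - a) (by linarith)
      have c2 := b2 (v - b) (by linarith)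
      have c3 := b2 (v + c) (by linarith)
      have c4 := h v (hU.trans hv)
      have d1 : 1 / v + a / v ^ 2 ≤ 1 / (v - a) := by
        rw [le_div_iff₀ (by linarith), ← sub_nonneg,
          show 1 - (1 / v + a / v ^ 2) * (v - a) = a ^ 2 / v ^ 2 by field_simp; ring]
        positivity
      have d2 : 1 / v ≤ 1 / (v - b) := one_div_le_one_div_of_le (by linarith) (by linarith)
      have d3 : 1 / v - c / v ^ 2 ≤ 1 / (v + c) := by
        rw [le_div_iff₀ (by linarith), ← sub_nonneg,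
          show 1 - (1 / v - c / v ^ 2) * (v + c) = c ^ 2 / v ^ 2 by field_simp; ring]
        positivity
      have d4 : 1 / 2 / v ^ 2 ≤ a / v ^ 2 - c / v ^ 2 := by
        rw [← sub_div]
        gcongr
        linarith
      have d5 : 3 * (1 / v) + 1 / 2 / v ^ 2 ≤ 1 / (v - a) + 1 / (v - b) + 1 / (v + c) := by linarith
      have d6 := mul_le_mul_of_nonneg_left d5 (show 0 ≤ 6 * C by positivity)
      have d7 : ε * (1 / 2) ≤ ε * (a + b - c) := by gcongr; linarith
      rw [hf] at c1 c2 c3 ⊢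
      have e1 : 6 * C * (3 * (1 / v) + 1 / 2 / v ^ 2) = 3 * (6 * C / v) + 3 * (C / v ^ 2) := by ring
      have e2 : 6 * C * (1 / (v - a) + 1 / (v - b) + 1 / (v + c)) =
          6 * C / (v - a) + 6 * C / (v - b) + 6 * C / (v + c) := by ring
      rw [e1, e2] at d6
      linarith
    have b4 : S ≤ max (M + (6 * C / (u0 - a) - ε * (u0 - a))) (S - ε / 6) := by
      conv_lhs => rw [hS]
      refine csSup_le ⟨_, u0 - a, Set.mem_Ici.2 le_rfl, rfl⟩ ?_
      rintro _ ⟨v, hv, rfl⟩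
      rcases le_total v u0 with e | e
      · refine le_max_of_le_left ?_
        rw [hf]
        linarith [hM v hv e, b0 v hv]
      · exact le_max_of_le_right (b3 v e)
    have b5 : S ≤ M + (6 * C / (u0 - a) - ε * (u0 - a)) := by
      rcases le_max_iff.1 b4 with e | e
      · exact e
      · linarith
    have b6 := b2 u (by linarith)
    rw [hf] at b6
    have b7 : 0 ≤ 6 * C / u := div_nonneg (by positivity) (by linarith)
    linarith
  refine le_of_forall_pos_le_add fun δ hδ => ?_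
  have hq : 0 < u - u0 + a := by linarith
  have := key (δ / (u - u0 + a)) (by positivity)
  rwa [div_mul_cancel₀ _ hq.ne'] at this

/-- The shifts under which `g` is asymptotically invariant. -/
def SV (g : ℝ → ℝ) : AddSubgroup ℝ where
  carrier := {s | Tendsto (fun u => g (u + s) - g u) atTop (𝓝 0)}
  zero_mem' := by simp
  add_mem' := by
    intro s t hs ht
    have := (Tendsto.comp ht (tendsto_atTop_add_const_right atTop s tendsto_id)).add hs
    simpa [Function.comp_def, add_assoc] using this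
  neg_mem' := by
    intro s hs
    have := (Tendsto.comp hs (tendsto_atTop_add_const_right atTop (-s) tendsto_id)).neg
    simpa [Function.comp_def] using this

theorem mem_SV {g : ℝ → ℝ} {s : ℝ} :
    s ∈ SV g ↔ Tendsto (fun u => g (u + s) - g u) atTop (𝓝 0) := Iff.rfl

theorem shift_real {γ : ℝ} (hγ : 0 < γ) {M : ℕ} (hM : 8 / γ ^ 2 ≤ M) (h : ℕ → ℝ)
    (hh : ∀ j, |h j| ≤ 1) : |EW M (fun w => h (w.sum + 1)) - EW M (fun w => h w.sum)| ≤ γ := by
  have := shift_le hγ hM (fun j => (h j : ℂ)) fun j => by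
    rw [Complex.norm_real]
    exact hh j
  rwa [← ofReal_EW, ← ofReal_EW, ← Complex.ofReal_sub, Complex.norm_real] at this

theorem EW_one (f : List ℕ → ℝ) : EW 1 f = (f [0] + f [1] + f [2]) / 3 := by
  rw [EW_succ, EW_zero, EW_zero, EW_zero]

variable {g : ℝ → ℝ}

theorem two_mem (h0 : ∀ u, 0 ≤ g u) (h1 : ∀ u, g u ≤ 1) (h2 : ∀ j : ℕ, Tendsto
    (fun u => g u - EW j fun w => g (u + w.sum * log 2 - j * log 3)) atTop (𝓝 0)) :
    log 2 ∈ SV g := by
  rw [mem_SV, Metric.tendsto_nhds]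
  intro ε hε
  obtain ⟨M, hM⟩ := exists_nat_ge (8 / (ε / 2) ^ 2)
  have a1 := ((Tendsto.comp (h2 M) (tendsto_atTop_add_const_right atTop (log 2) tendsto_id)).sub
    (h2 M))
  rw [sub_zero, Metric.tendsto_nhds] at a1
  filter_upwards [a1 (ε / 2) (by positivity)] with u hu
  have a2 := shift_real (by positivity) hM (fun j => g (u + j * log 2 - M * log 3)) fun j => by
    rw [abs_of_nonneg (h0 _)]
    exact h1 _
  have a3 : ∀ w : List ℕ, u + ((w.sum + 1 : ℕ) : ℝ) * log 2 - M * log 3 =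
      u + log 2 + w.sum * log 2 - M * log 3 := fun w => by push_cast; ring
  simp only [a3] at a2
  simp only [Function.comp_def, id, Real.dist_eq, sub_zero] at hu ⊢
  rw [abs_lt] at hu ⊢
  rw [abs_le] at a2
  constructor <;> linarith [hu.1, hu.2, a2.1, a2.2]

theorem three_mem (h0 : ∀ u, 0 ≤ g u) (h1 : ∀ u, g u ≤ 1) (h2 : ∀ j : ℕ, Tendsto
    (fun u => g u - EW j fun w => g (u + w.sum * log 2 - j * log 3)) atTop (𝓝 0)) :
    log 3 ∈ SV g := by
  have a1 := two_mem h0 h1 h2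
  have a2 := (SV g).add_mem a1 a1
  have a3 := Tendsto.comp (h2 1) (tendsto_atTop_add_const_right atTop (log 3) tendsto_id)
  rw [mem_SV] at a1 a2 ⊢
  have a4 := a3.add ((a1.add a2).div_const 3)
  simp only [add_zero, zero_div] at a4
  refine a4.congr fun u => ?_
  simp only [Function.comp_def, id, EW_one, List.sum_singleton]
  rw [show u + log 3 + ((0 : ℕ) : ℝ) * log 2 - ((1 : ℕ) : ℝ) * log 3 = u by push_cast; ring,
    show u + log 3 + ((1 : ℕ) : ℝ) * log 2 - ((1 : ℕ) : ℝ) * log 3 = u + log 2 by push_cast; ring,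
    show u + log 3 + ((2 : ℕ) : ℝ) * log 2 - ((1 : ℕ) : ℝ) * log 3 = u + (log 2 + log 2) by
      push_cast; ring]
  ring

theorem small_mem {S : AddSubgroup ℝ} (h2 : log 2 ∈ S) (h3 : log 3 ∈ S) {δ : ℝ} (hδ : 0 < δ) :
    ∃ η ∈ S, 0 < η ∧ η < δ := by
  rcases S.dense_or_cyclic with h | ⟨a, rfl⟩
  · obtain ⟨η, h1, h4⟩ := h.exists_mem_open isOpen_Ioo (Set.nonempty_Ioo.2 hδ)
    exact ⟨η, h1, h4⟩
  · exfalso
    obtain ⟨m, hm⟩ := AddSubgroup.mem_closure_singleton.1 h2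
    obtain ⟨n, hn⟩ := AddSubgroup.mem_closure_singleton.1 h3
    rw [zsmul_eq_mul] at hm hn
    have l2 : 0 < log 2 := log_pos (by norm_num)
    have l3 : 0 < log 3 := log_pos (by norm_num)
    have a1 : (n : ℝ) * log 2 = m * log 3 := by rw [← hm, ← hn]; ring
    have a2 : (n.natAbs : ℝ) * log 2 = m.natAbs * log 3 := by
      have := congrArg abs a1
      rwa [abs_mul, abs_mul, abs_of_pos l2, abs_of_pos l3, ← Int.cast_abs, ← Int.cast_abs,
        ← Int.natCast_natAbs, ← Int.natCast_natAbs, Int.cast_natCast, Int.cast_natCast] at this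
    rw [← log_pow, ← log_pow] at a2
    have a3 : (2 : ℝ) ^ n.natAbs = 3 ^ m.natAbs :=
      log_injOn_pos (Set.mem_Ioi.2 (by positivity)) (Set.mem_Ioi.2 (by positivity)) a2
    have a4 : 2 ^ n.natAbs = 3 ^ m.natAbs := by exact_mod_cast a3
    have a5 : n.natAbs = 0 := by
      by_contra e
      have b1 : 2 ∣ 3 ^ m.natAbs := a4 ▸ dvd_pow_self 2 e
      exact absurd (Nat.prime_two.dvd_of_dvd_pow b1) (by norm_num)
    rw [Int.natAbs_eq_zero.1 a5] at hn
    simp only [Int.cast_zero, zero_mul] at hn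
    linarith

theorem window (h1 : ∀ u, g u ≤ 1) (h2 : log 2 ∈ SV g) (h3 : log 3 ∈ SV g)
    (h4 : ∀ w v, w ≤ v → g w ≤ exp (v - w) * g v) (h0 : ∀ u, 0 ≤ g u) (a : ℝ) {ε : ℝ}
    (hε : 0 < ε) : ∀ᶠ u0 in atTop, ∀ w, u0 - a ≤ w → w ≤ u0 → g w ≤ g u0 + ε := by
  obtain ⟨η, a1, a2, a3⟩ := small_mem h2 h3 (log_pos (show 1 < 1 + ε / 2 by linarith))
  have a4 : ∀ i ∈ range (⌈a / η⌉₊ + 1), ∀ᶠ u0 in atTop, g (u0 + -(i • η)) - g u0 < ε / 2 :=
    fun i _ => (mem_SV.1 ((SV g).neg_mem ((SV g).nsmul_mem a1 i))).eventually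
      (gt_mem_nhds (by positivity))
  filter_upwards [(eventually_all_finset _).2 a4] with u0 hu w b1 b2
  have b0 : 0 ≤ (u0 - w) / η := div_nonneg (by linarith) a2.le
  have b3 := Nat.floor_le b0
  have b4 := Nat.lt_floor_add_one ((u0 - w) / η)
  have b5 : ⌊(u0 - w) / η⌋₊ ≤ ⌈a / η⌉₊ := by
    refine (Nat.floor_le_ceil _).trans (Nat.ceil_mono ?_)
    gcongr
    linarith
  have b6 := hu _ (mem_range.2 (Nat.lt_succ_of_le b5))
  generalize ⌊(u0 - w) / η⌋₊ = i at b3 b4 b6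
  rw [le_div_iff₀ a2] at b3
  rw [div_lt_iff₀ a2] at b4
  rw [nsmul_eq_mul] at b6
  have b7 := h4 w (u0 + -(i * η)) (by linarith)
  have b8 : exp (u0 + -(i * η) - w) ≤ 1 + ε / 2 := by
    rw [← exp_log (show 0 < 1 + ε / 2 by linarith)]
    exact exp_le_exp.2 (by linarith)
  have b9 := mul_le_mul_of_nonneg_right b8 (h0 (u0 + -(i * η)))
  have b10 := mul_le_mul_of_nonneg_left (h1 (u0 + -(i * η))) (show 0 ≤ ε / 2 by positivity)
  linarith

theorem conv (h0 : ∀ u, 0 ≤ g u) (h1 : ∀ u, g u ≤ 1) (h2 : ∀ j : ℕ, Tendsto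
    (fun u => g u - EW j fun w => g (u + w.sum * log 2 - j * log 3)) atTop (𝓝 0))
    (h4 : ∀ w v, w ≤ v → g w ≤ exp (v - w) * g v) {C U : ℝ} (hC : 0 ≤ C)
    (h5 : ∀ u, U ≤ u → g u ≤ EW 1 (fun w => g (u + w.sum * log 2 - (1 : ℕ) * log 3)) + C / u ^ 2) :
    ∃ d, Tendsto g atTop (𝓝 d) := by
  have l2 : 0 < log 2 := log_pos (by norm_num)
  have l3 : log 2 + 1 / 3 ≤ log 3 := by
    have := one_sub_inv_le_log_of_pos (show (0 : ℝ) < 3 / 2 by norm_num)
    rw [log_div (by norm_num) (by norm_num)] at this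
    norm_num at this
    linarith
  have l4 : log 3 ≤ 2 * log 2 := by
    rw [show 2 * log 2 = log (2 ^ 2) by rw [log_pow]; norm_num]
    exact log_le_log (by norm_num) (by norm_num)
  have key : ∀ ε : ℝ, 0 < ε → ∀ᶠ u0 in atTop, ∀ u, u0 ≤ u → g u ≤ g u0 + ε := by
    intro ε hε
    have a1 : Tendsto (fun u0 : ℝ => 6 * C / (u0 - log 3)) atTop (𝓝 0) :=
      tendsto_const_nhds.div_atTop (tendsto_atTop_add_const_right atTop (-log 3) tendsto_id)
    filter_upwards [window h1 (two_mem h0 h1 h2) (three_mem h0 h1 h2) h4 h0 (log 3)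
      (half_pos hε), a1.eventually (gt_mem_nhds (half_pos hε)), eventually_ge_atTop U,
      eventually_gt_atTop (log 3)] with u0 b1 b2 b3 b4 u hu
    have := maxp (b := log 3 - log 2) (c := 2 * log 2 - log 3) h1 hC (by linarith) (by linarith)
      (by linarith) (by linarith) (fun v hv => by
        have := h5 v hv
        simp only [EW_one, List.sum_singleton] at this
        rwa [show v + ((0 : ℕ) : ℝ) * log 2 - ((1 : ℕ) : ℝ) * log 3 = v - log 3 by push_cast; ring,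
          show v + ((1 : ℕ) : ℝ) * log 2 - ((1 : ℕ) : ℝ) * log 3 = v - (log 3 - log 2) by
            push_cast; ring,
          show v + ((2 : ℕ) : ℝ) * log 2 - ((1 : ℕ) : ℝ) * log 3 = v + (2 * log 2 - log 3) by
            push_cast; ring] at this) b3 b4 b1 u hu
    linarith
  refine tendsto_of_no_upcrossings dense_univ (fun a _ b _ hab ⟨c1, c2⟩ => ?_)
    (isBoundedUnder_of ⟨1, h1⟩) (isBoundedUnder_of ⟨0, h0⟩)
  obtain ⟨u0, d1, d2⟩ := (c1.and_eventually (key (b - a) (sub_pos.2 hab))).exists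
  obtain ⟨u, d3, d4⟩ := (c2.and_eventually (eventually_ge_atTop u0)).exists
  linarith [d2 u d4]

end Pool.Agent.MP_2e2529_nt.Dens

end

section

/-! Invariant sets have a natural density. -/

namespace Pool.Agent.MP_2e2529_nt.Dens

open Finset Real Filter Topology Classical

variable {P : ℕ → Prop} {N : ℕ}

theorem Fc_mono {X Y : ℕ} (h : X ≤ Y) : Fc P X ≤ Fc P Y :=
  card_le_card (filter_subset_filter _ (range_subset_range.2 (Nat.succ_le_succ h)))

theorem Fc_add (X : ℕ) : Fc P X + Fc (fun x => ¬ P x) X = (X + 1) / 2 := by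
  induction X with
  | zero => simp [Fc]
  | succ X ih =>
    unfold Fc at ih ⊢
    rw [range_add_one (n := X + 1), filter_insert, filter_insert]
    by_cases e : (X + 1) % 2 = 1
    · by_cases e' : P (X + 1)
      · rw [if_pos ⟨e, e'⟩, if_neg (fun a => a.2 e'), card_insert_of_notMem (by simp)]
        omega
      · rw [if_neg (fun a => e' a.2), if_pos ⟨e, e'⟩, card_insert_of_notMem (by simp)]
        omega
    · rw [if_neg (fun a => e a.1), if_neg (fun a => e a.1)]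
      omega

theorem Fc_le (X : ℕ) : Fc P X ≤ X := by
  have := Fc_add (P := P) X
  omega

/-- The proportion of odd members up to `exp u`. -/
noncomputable def gf (P : ℕ → Prop) (u : ℝ) : ℝ := Fc P ⌊exp u⌋₊ / exp u

theorem gf_nonneg (u : ℝ) : 0 ≤ gf P u := div_nonneg (Nat.cast_nonneg _) (exp_pos u).le

theorem gf_le (u : ℝ) : gf P u ≤ 1 := by
  rw [gf, div_le_one (exp_pos u)]
  exact (Nat.cast_le.2 (Fc_le _)).trans (Nat.floor_le (exp_pos u).le)

theorem gf_mono (w v : ℝ) (h : w ≤ v) : gf P w ≤ exp (v - w) * gf P v := by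
  have a : (Fc P ⌊exp w⌋₊ : ℝ) ≤ Fc P ⌊exp v⌋₊ :=
    Nat.cast_le.2 (Fc_mono (Nat.floor_mono (exp_le_exp.2 h)))
  rw [gf, gf, exp_sub, show exp v / exp w * (Fc P ⌊exp v⌋₊ / exp v) = Fc P ⌊exp v⌋₊ / exp w by
    field_simp]
  gcongr

theorem two_pow_le (k : ℕ) : (2 : ℝ) ^ k ≤ exp k := by
  rw [← mul_one (k : ℝ), exp_nat_mul]
  gcongr
  linarith [add_one_le_exp 1]

theorem up : ∃ C : ℝ, 0 ≤ C ∧ ∀ (P : ℕ → Prop) (N j : ℕ), Inv P N → ∀ u : ℝ, 0 < u →
    40 * j ≤ u → 2 * (N + 2) ≤ u →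
    gf P u ≤ EW j (fun w => gf P (u + w.sum * log 2 - j * log 3)) + C / u ^ 2 := by
  obtain ⟨C, hC0, hC⟩ := renew 2
  refine ⟨1600 * C, by positivity, fun P N j hP u h0 h1 h2 => ?_⟩
  have a1 := Nat.floor_le (show 0 ≤ u / 40 by positivity)
  have a2 := Nat.lt_floor_add_one (u / 40)
  have a3 : j ≤ ⌊u / 40⌋₊ := Nat.le_floor (by linarith)
  generalize ⌊u / 40⌋₊ = t at a1 a2 a3
  have a4 := hC P N ⌊exp u⌋₊ t j hP a3 (Nat.le_floor (by
      push_cast
      refine (two_pow_le _).trans (exp_le_exp.2 ?_)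
      push_cast
      linarith)) (Nat.le_floor (by
      push_cast
      rw [show u = u / 2 + u / 2 by ring, exp_add]
      refine mul_le_mul ((two_pow_le _).trans (exp_le_exp.2 ?_)) ?_ (by positivity) (by positivity)
      · push_cast
        linarith
      · linarith [add_one_le_exp (u / 2)]))
  have a5 := Nat.floor_le (exp_pos u).le
  have he := exp_pos u
  rw [gf, div_le_iff₀ he, add_mul, ← EW_mul']
  refine a4.trans (add_le_add (EW_mono fun w _ => ?_) ?_)
  · have b1 : exp (u + w.sum * log 2 - j * log 3) = 2 ^ w.sum * exp u / 3 ^ j := by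
      rw [exp_sub, exp_add, exp_nat_mul, exp_nat_mul, exp_log (by norm_num),
        exp_log (by norm_num), mul_comm]
    have b2 : 2 ^ w.sum * ⌊exp u⌋₊ / 3 ^ j ≤ ⌊2 ^ w.sum * exp u / 3 ^ j⌋₊ := by
      refine Nat.le_floor (Nat.cast_div_le.trans ?_)
      push_cast
      gcongr
    have b3 := (Nat.cast_le (α := ℝ)).2 (Fc_mono (P := P) b2)
    rw [gf, b1]
    generalize (Fc P ⌊2 ^ w.sum * exp u / 3 ^ j⌋₊ : ℝ) = z at b3
    rw [show z / (2 ^ w.sum * exp u / 3 ^ j) * exp u = 3 ^ j / 2 ^ w.sum * z by field_simp]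
    gcongr
  · refine mul_le_mul ?_ a5 (Nat.cast_nonneg _) (by positivity)
    rw [div_le_div_iff₀ (by positivity) (by positivity)]
    have : u ^ 2 ≤ (40 * (t + 1)) ^ 2 := by gcongr; linarith
    calc C * u ^ 2 ≤ C * (40 * (t + 1)) ^ 2 := by gcongr
      _ = _ := by ring

theorem half : Tendsto (fun u => gf P u + gf (fun x => ¬ P x) u) atTop (𝓝 (1 / 2)) := by
  have a1 : Tendsto (fun u : ℝ => 1 / 2 - (exp u)⁻¹) atTop (𝓝 (1 / 2 - 0)) :=
    tendsto_const_nhds.sub tendsto_exp_atTop.inv_tendsto_atTop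
  have a2 : Tendsto (fun u : ℝ => 1 / 2 + (exp u)⁻¹) atTop (𝓝 (1 / 2 + 0)) :=
    tendsto_const_nhds.add tendsto_exp_atTop.inv_tendsto_atTop
  rw [sub_zero] at a1
  rw [add_zero] at a2
  have b : ∀ u, exp u - 1 ≤ 2 * ((gf P u + gf (fun x => ¬ P x) u) * exp u) ∧
      2 * ((gf P u + gf (fun x => ¬ P x) u) * exp u) ≤ exp u + 1 := fun u => by
    have he := exp_pos u
    rw [gf, gf, ← add_div, div_mul_cancel₀ _ he.ne', ← Nat.cast_add, Fc_add]
    have c1 := Nat.floor_le he.le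
    have c2 := Nat.lt_floor_add_one (exp u)
    generalize ⌊exp u⌋₊ = X at c1 c2
    have c3 : (X : ℝ) ≤ 2 * ((X + 1) / 2 : ℕ) := by exact_mod_cast (by omega)
    have c4 : 2 * (((X + 1) / 2 : ℕ) : ℝ) ≤ X + 1 := by exact_mod_cast (by omega)
    constructor <;> linarith
  refine tendsto_of_tendsto_of_tendsto_of_le_of_le a1 a2 (fun u => ?_) fun u => ?_
  · have he := exp_pos u
    refine le_of_mul_le_mul_right ?_ he
    rw [sub_mul, inv_mul_cancel₀ he.ne']
    linarith [(b u).1]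
  · have he := exp_pos u
    refine le_of_mul_le_mul_right ?_ he
    rw [add_mul (1 / 2 : ℝ), inv_mul_cancel₀ he.ne']
    linarith [(b u).2]

theorem both (hP : Inv P N) (j : ℕ) : Tendsto
    (fun u => gf P u - EW j fun w => gf P (u + w.sum * log 2 - j * log 3)) atTop (𝓝 0) := by
  obtain ⟨C, hC0, hC⟩ := up
  have hQ : Inv (fun x => ¬ P x) N := fun x h1 h2 => not_congr (hP x h1 h2)
  have a1 : Tendsto (fun u : ℝ => C / u ^ 2) atTop (𝓝 0) :=
    tendsto_const_nhds.div_atTop (tendsto_pow_atTop two_ne_zero)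
  have a2 : Tendsto (fun u => EW j fun w => gf P (u + w.sum * log 2 - j * log 3) +
      gf (fun x => ¬ P x) (u + w.sum * log 2 - j * log 3)) atTop (𝓝 (EW j fun _ => 1 / 2)) := by
    unfold EW
    refine (tendsto_finsetSum _ fun w _ => ?_).div_const _
    refine (half (P := P)).comp (f := fun u => u + w.sum * log 2 - j * log 3) ?_
    exact tendsto_atTop_add_const_right atTop _ (tendsto_atTop_add_const_right atTop _ tendsto_id)
  rw [EW_const] at a2
  have a3 := ((half (P := P)).sub a2).sub a1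
  rw [sub_self, sub_zero] at a3
  have a4 : ∀ᶠ u : ℝ in atTop, 0 < u ∧ 40 * (j : ℝ) ≤ u ∧ 2 * ((N : ℝ) + 2) ≤ u :=
    (eventually_gt_atTop _).and ((eventually_ge_atTop _).and (eventually_ge_atTop _))
  refine tendsto_of_tendsto_of_tendsto_of_le_of_le' a3 a1 ?_ ?_
  · filter_upwards [a4] with u hu
    rw [EW_add]
    linarith [hC _ N j hQ u hu.1 hu.2.1 hu.2.2]
  · filter_upwards [a4] with u hu
    linarith [hC _ N j hP u hu.1 hu.2.1 hu.2.2]

theorem odd_lim (hP : Inv P N) :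
    ∃ d : ℝ, Tendsto (fun X : ℕ => (Fc P X : ℝ) / X) atTop (𝓝 d) := by
  obtain ⟨C, hC0, hC⟩ := up
  obtain ⟨d, hd⟩ := conv gf_nonneg gf_le (both hP) gf_mono (U := 40 + 2 * (N + 2)) hC0
    fun u hu => by
      have := N.cast_nonneg (α := ℝ)
      exact hC P N 1 hP u (by linarith) (by push_cast; linarith) (by linarith)
  refine ⟨d, (hd.comp (tendsto_log_atTop.comp tendsto_natCast_atTop_atTop)).congr' ?_⟩
  filter_upwards [eventually_gt_atTop 0] with X hX
  simp only [Function.comp_def, gf]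
  rw [exp_log (Nat.cast_pos.2 hX), Nat.floor_natCast]

theorem inv_of {i : ℕ → ℕ} (hi : ∀ x, i x = if x % 2 = 0 then x / 2 else 4 * x / 3)
    (h : ∀ x, N < x → (P x ↔ P (i x))) : Inv P (2 * N) := by
  intro x hx hN
  have a := T_spec x
  have e : ∀ y, N < 2 * y → (P (2 * y) ↔ P y) := fun y hy => by
    rw [h _ hy, hi, if_pos (by omega), Nat.mul_div_cancel_left _ two_pos]
  rw [h x (by omega), hi, if_neg (by omega)]
  unfold st at a
  split_ifs at a <;> norm_num at a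
  · rw [show 4 * x / 3 = 2 * (2 * T x) by omega, e _ (by omega), e _ (by omega)]
  · rw [show 4 * x / 3 = T x by omega]
  · rw [show 4 * x / 3 = 2 * T x by omega, e _ (by omega)]

theorem split (e : ∀ y, N < 2 * y → (P (2 * y) ↔ P y)) (X : ℕ) :
    #{x ∈ Icc 1 X | P x} ≤ Fc P X + #{x ∈ Icc 1 (X / 2) | P x} + N ∧
      Fc P X + #{x ∈ Icc 1 (X / 2) | P x} ≤ #{x ∈ Icc 1 X | P x} + N := by
  have a0 : ∀ S : Finset ℕ, #(S ∪ Icc 1 N) ≤ #S + N := fun S =>
    (card_union_le _ _).trans_eq (by simp)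
  have a1 : Fc P X + #{x ∈ Icc 1 (X / 2) | P x} =
      #({x ∈ range (X + 1) | x % 2 = 1 ∧ P x} ∪
        ({x ∈ Icc 1 (X / 2) | P x}.image fun y => 2 * y)) := by
    rw [card_union_of_disjoint, card_image_of_injective _ fun a b c => by simpa using c, Fc]
    rw [disjoint_left]
    intro x h1 h2
    obtain ⟨y, -, rfl⟩ := mem_image.1 h2
    have := (mem_filter.1 h1).2.1
    omega
  rw [a1]
  constructor
  · refine (card_le_card fun x hx => ?_).trans (a0 _)
    simp only [mem_union, mem_image, mem_filter, mem_Icc, mem_range] at hx ⊢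
    by_cases b : x ≤ N
    · exact Or.inr ⟨hx.1.1, b⟩
    by_cases c : x % 2 = 1
    · exact Or.inl (Or.inl ⟨by omega, c, hx.2⟩)
    · obtain ⟨y, rfl⟩ : ∃ y, x = 2 * y := ⟨x / 2, by omega⟩
      exact Or.inl (Or.inr ⟨y, ⟨by omega, (e y (by omega)).1 hx.2⟩, rfl⟩)
  · refine (card_le_card fun x hx => ?_).trans (a0 _)
    simp only [mem_union, mem_image, mem_filter, mem_Icc, mem_range] at hx ⊢
    rcases hx with ⟨c1, c2, c3⟩ | ⟨y, ⟨c1, c2⟩, rfl⟩
    · exact Or.inl ⟨by omega, c3⟩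
    · by_cases b : 2 * y ≤ N
      · exact Or.inr ⟨by omega, b⟩
      · exact Or.inl ⟨by omega, (e y (by omega)).2 c2⟩

theorem dens_final (i : ℕ → ℕ) (hi : ∀ x, i x = if x % 2 = 0 then x / 2 else 4 * x / 3)
    (h : ∀ x, N < x → (P x ↔ P (i x))) :
    ∃ d : ℝ, Tendsto (fun X : ℕ => (#{x ∈ Icc 1 X | P x} : ℝ) / X) atTop (𝓝 d) := by
  obtain ⟨d, hd⟩ := odd_lim (inv_of hi h)
  have e : ∀ y, N < 2 * y → (P (2 * y) ↔ P y) := fun y hy => by
    rw [h _ hy, hi, if_pos (by omega), Nat.mul_div_cancel_left _ two_pos]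
  obtain ⟨A, hA⟩ : ∃ A : ℕ → ℝ, ∀ X, A X = #{x ∈ Icc 1 X | P x} := ⟨_, fun _ => rfl⟩
  simp only [← hA]
  have a0 : ∀ X, 0 ≤ A X ∧ A X ≤ X := fun X => by
    rw [hA]
    exact ⟨Nat.cast_nonneg _, Nat.cast_le.2 ((card_filter_le _ _).trans (by simp))⟩
  have a1 : ∀ X, |A X - Fc P X - A (X / 2)| ≤ N := fun X => by
    obtain ⟨b1, b2⟩ := split e X
    have c1 := (Nat.cast_le (α := ℝ)).2 b1
    have c2 := (Nat.cast_le (α := ℝ)).2 b2
    push_cast at c1 c2
    rw [hA, hA, abs_le]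
    constructor <;> linarith
  refine ⟨2 * d, Metric.tendsto_nhds.2 fun ε hε => ?_⟩
  have a2 : ∀ c : ℝ, Tendsto (fun X : ℕ => c / (X : ℝ)) atTop (𝓝 0) :=
    fun c => tendsto_const_div_atTop_nhds_zero_nat c
  obtain ⟨X₀, a3⟩ := eventually_atTop.1 ((Metric.tendsto_nhds.1 hd (ε / 8) (by positivity)).and
    (((a2 (N + |d|)).eventually (gt_mem_nhds (show 0 < ε / 8 by positivity))).and
      (eventually_gt_atTop 0)))
  have key : ∀ X : ℕ, |A X - 2 * d * X| ≤ ε / 2 * X + (1 + 2 * |d|) * X₀ := by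
    intro X
    induction X using Nat.strong_induction_on with
    | _ X ih =>
    have hX := X.cast_nonneg (α := ℝ)
    rcases le_or_gt X₀ X with c | c
    · obtain ⟨b1, b2, b3⟩ := a3 X c
      have b4 : (0 : ℝ) < X := Nat.cast_pos.2 b3
      rw [Real.dist_eq, div_sub' b4.ne', abs_div, abs_of_pos b4, div_lt_iff₀ b4] at b1
      rw [div_lt_iff₀ b4] at b2
      have b5 := ih (X / 2) (by omega)
      have b6 : 2 * ((X / 2 : ℕ) : ℝ) ≤ X := by exact_mod_cast (by omega)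
      have b7 : (X : ℝ) ≤ 2 * ((X / 2 : ℕ) : ℝ) + 1 := by exact_mod_cast (by omega)
      have b8 : |2 * d * (X / 2 : ℕ) - X * d| ≤ |d| := by
        rw [show 2 * d * (X / 2 : ℕ) - X * d = d * (2 * (X / 2 : ℕ) - X) by ring, abs_mul]
        refine mul_le_of_le_one_right (abs_nonneg _) (abs_le.2 ⟨?_, ?_⟩) <;> linarith
      have b9 := a1 X
      have b10 := mul_le_mul_of_nonneg_left b6 hε.le
      rw [abs_lt] at b1
      rw [abs_le] at b5 b8 b9 ⊢
      constructor <;> linarith [b1.1, b1.2, b5.1, b5.2, b8.1, b8.2, b9.1, b9.2]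
    · have b1 : (X : ℝ) ≤ X₀ := Nat.cast_le.2 c.le
      have b2 : |A X - 2 * d * X| ≤ (1 + 2 * |d|) * X := by
        refine (abs_sub _ _).trans ?_
        rw [abs_of_nonneg (a0 X).1, abs_mul, abs_mul, abs_two, abs_of_nonneg hX]
        linarith [(a0 X).2]
      have b3 : (1 + 2 * |d|) * X ≤ (1 + 2 * |d|) * X₀ := by gcongr
      linarith [mul_nonneg (half_pos hε).le hX]
  filter_upwards [(a2 ((1 + 2 * |d|) * X₀)).eventually (gt_mem_nhds (half_pos hε)),
    eventually_gt_atTop 0] with X b1 b2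
  have b4 : (0 : ℝ) < X := Nat.cast_pos.2 b2
  rw [div_lt_iff₀ b4] at b1
  rw [Real.dist_eq, div_sub' b4.ne', abs_div, abs_of_pos b4, div_lt_iff₀ b4,
    mul_comm (X : ℝ) (2 * d)]
  linarith [key X]

end Pool.Agent.MP_2e2529_nt.Dens

end
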